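import Mathlib

/-!
# Two paths in the disc with interleaved ends on the circle meet
-/

namespace Pool.Agent.Helper77.GP

open Complex Set

/-- argument of `1 - e^{iφ}` -/
lemma arg_one_sub {φ : ℝ} (h0 : 0 < φ) (h1 : φ < 2 * Real.pi) :
    (1 - exp (φ * I)).arg = (φ - Real.pi) / 2 := by
  have hs : 0 < 2 * Real.sin (φ / 2) := by
    have := Real.sin_pos_of_pos_of_lt_pi (x := φ / 2) (by linarith) (by linarith)
    linarith
  have e : 1 - exp (φ * I) = ((2 * Real.sin (φ / 2) : ℝ) : ℂ) *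
      (cos (((φ - Real.pi) / 2 : ℝ) : ℂ) + sin (((φ - Real.pi) / 2 : ℝ) : ℂ) * I) := by
    have h2 : ((φ - Real.pi) / 2 : ℝ) = φ / 2 - Real.pi / 2 := by ring
    rw [h2, ← ofReal_cos, ← ofReal_sin, Real.cos_sub_pi_div_two, Real.sin_sub_pi_div_two]
    have h3 : (φ : ℂ) * I = ((φ / 2 : ℝ) : ℂ) * I + ((φ / 2 : ℝ) : ℂ) * I := by
      push_cast; ring
    rw [h3, exp_add, exp_mul_I, ← ofReal_cos, ← ofReal_sin]
    have h4 : ((Real.sin (φ / 2) : ℝ) : ℂ) ^ 2 + ((Real.cos (φ / 2) : ℝ) : ℂ) ^ 2 = 1 := by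
      exact_mod_cast Real.sin_sq_add_cos_sq (φ / 2)
    rw [ofReal_mul, ofReal_neg]
    simp only [ofReal_ofNat]
    linear_combination (-1 : ℂ) * h4 - ((Real.sin (φ / 2) : ℝ) : ℂ) ^ 2 * I_sq
  rw [e]
  apply arg_mul_cos_add_sin_mul_I hs
  constructor <;> linarith

/-- the same with a shift by `2π` -/
lemma arg_one_sub' {φ ψ : ℝ} (h0 : 0 < ψ) (h1 : ψ < 2 * Real.pi)
    (h : φ = ψ ∨ φ = ψ - 2 * Real.pi) : (1 - exp (φ * I)).arg = (ψ - Real.pi) / 2 := by
  have : exp ((φ : ℂ) * I) = exp (ψ * I) := by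
    rcases h with h | h
    · rw [h]
    · rw [h]
      push_cast
      rw [sub_mul, exp_sub, exp_two_pi_mul_I, div_one]
  rw [this]
  exact arg_one_sub h0 h1

/-- change of the argument along a path in a half plane -/
lemma im_change {g w : ℝ → ℂ} {q : ℂ} (hg : ContinuousOn g (Icc 0 1))
    (hw : ContinuousOn w (Icc 0 1)) (hre : ∀ t ∈ Icc (0 : ℝ) 1, 0 < (w t).re)
    (h : ∀ t ∈ Icc (0 : ℝ) 1, exp (g t) = q * w t) :
    (g 1).im - (g 0).im = (w 1).arg - (w 0).arg := by
  have h0 : (0 : ℝ) ∈ Icc (0 : ℝ) 1 := ⟨le_rfl, zero_le_one⟩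
  have h1 : (1 : ℝ) ∈ Icc (0 : ℝ) 1 := ⟨zero_le_one, le_rfl⟩
  have hne : ∀ t ∈ Icc (0 : ℝ) 1, w t ≠ 0 := by
    intro t ht h
    have := hre t ht
    rw [h] at this
    simp at this
  have hlog : ContinuousOn (fun t => log (w t) + (g 0 - log (w 0))) (Icc 0 1) := by
    apply ContinuousOn.add _ continuousOn_const
    exact hw.clog fun t ht => Or.inl (hre t ht)
  have key := isCoveringMap_exp.eqOn_of_comp_eqOn isPreconnected_Icc hg hlog (by
    intro t ht
    apply Subtype.ext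
    show exp (g t) = exp (log (w t) + (g 0 - log (w 0)))
    rw [exp_add, exp_sub, exp_log (hne t ht), exp_log (hne 0 h0), h t ht, h 0 h0,
      mul_div_assoc, div_self (hne 0 h0), mul_one, mul_comm]) h0 (by ring)
  have := congrArg im (key h1)
  simp only [add_im, sub_im, log_im] at this
  linarith

/-- a point of the closed disc other than `e^{ia}` lies in the half plane -/
lemma re_pos {a : ℝ} {z : ℂ} (hz : ‖z‖ ≤ 1) (hne : exp (a * I) ≠ z) :
    0 < (1 - z * exp (-(a * I))).re := by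
  have hn : ‖z * exp (-(a * I))‖ = ‖z‖ := by
    rw [norm_mul, ← neg_mul, ← ofReal_neg, norm_exp_ofReal_mul_I, mul_one]
  by_contra hcon
  rw [not_lt, sub_re, one_re, sub_nonpos] at hcon
  have h1 : (z * exp (-(a * I))).re ≤ ‖z * exp (-(a * I))‖ := re_le_norm _
  have h2 : (z * exp (-(a * I))).re = 1 := by linarith
  have h3 : ‖z * exp (-(a * I))‖ = 1 := by linarith
  have h4 : (z * exp (-(a * I))).im = 0 := by
    have := Complex.sq_norm (z * exp (-(a * I)))
    rw [normSq_apply, h3, h2] at this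
    nlinarith
  have h5 : z * exp (-(a * I)) = 1 := Complex.ext (by simpa using h2) (by simpa using h4)
  rw [exp_neg, mul_inv_eq_one₀ (exp_ne_zero _)] at h5
  exact hne h5.symm

/-- The crossing lemma. -/
theorem crossing (α β : ℝ → ℂ) (hα : ContinuousOn α (Icc 0 1)) (hβ : ContinuousOn β (Icc 0 1))
    (hα1 : ∀ t ∈ Icc (0 : ℝ) 1, ‖α t‖ ≤ 1) (hβ1 : ∀ t ∈ Icc (0 : ℝ) 1, ‖β t‖ ≤ 1)
    {a b c d : ℝ} (hab : a < b) (hbc : b < c) (hcd : c < d) (hda : d < a + 2 * Real.pi)
    (h0 : α 0 = exp (a * I)) (h1 : α 1 = exp (c * I)) (h2 : β 0 = exp (b * I))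
    (h3 : β 1 = exp (d * I)) : ∃ s ∈ Icc (0 : ℝ) 1, ∃ t ∈ Icc (0 : ℝ) 1, α s = β t := by
  by_contra hcon
  push Not at hcon
  have m0 : (0 : ℝ) ∈ Icc (0 : ℝ) 1 := ⟨le_rfl, zero_le_one⟩
  have m1 : (1 : ℝ) ∈ Icc (0 : ℝ) 1 := ⟨zero_le_one, le_rfl⟩
  obtain ⟨cl, hcl, hclm, hcli⟩ : ∃ cl : ℝ → ℝ, Continuous cl ∧ (∀ t, cl t ∈ Icc (0 : ℝ) 1) ∧
      ∀ t ∈ Icc (0 : ℝ) 1, cl t = t :=
    ⟨fun t => max 0 (min t 1), by fun_prop, fun t => ⟨le_max_left _ _,
      max_le zero_le_one (min_le_right _ _)⟩, fun t ht => by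
      show max 0 (min t 1) = t
      rw [min_eq_left ht.2, max_eq_right ht.1]⟩
  have hF : Continuous fun p : ℝ × ℝ => (⟨α (cl p.1) - β (cl p.2),
      sub_ne_zero.2 (hcon _ (hclm _) _ (hclm _))⟩ : {z : ℂ // z ≠ 0}) := by
    apply Continuous.subtype_mk
    apply Continuous.sub
    · exact hα.comp_continuous (hcl.comp continuous_fst) fun p => hclm _
    · exact hβ.comp_continuous (hcl.comp continuous_snd) fun p => hclm _
  obtain ⟨z0, hz0⟩ : ∃ z0 : ℂ, exp z0 = α (cl 0) - β (cl 0) :=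
    ⟨log _, exp_log (sub_ne_zero.2 (hcon _ (hclm _) _ (hclm _)))⟩
  obtain ⟨G, ⟨_, hG⟩, _⟩ := isCoveringMap_exp.existsUnique_continuousMap_lifts
    (⟨_, hF⟩ : C(ℝ × ℝ, {z : ℂ // z ≠ 0})) (0, 0) z0 (Subtype.ext hz0)
  have hG' : ∀ s ∈ Icc (0 : ℝ) 1, ∀ t ∈ Icc (0 : ℝ) 1, exp (G (s, t)) = α s - β t := by
    intro s hs t ht
    have h := congrArg Subtype.val (congrFun hG (s, t))
    simp only [Function.comp, ContinuousMap.coe_mk] at h
    rw [h, hcli s hs, hcli t ht]
  have hcont : ∀ f : ℝ → ℝ × ℝ, Continuous f → ContinuousOn (fun t => G (f t)) (Icc 0 1) :=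
    fun f hf => (G.continuous.comp hf).continuousOn
  have hmul : ∀ x : ℝ, exp (x * I) * exp (-(x * I)) = 1 := by
    intro x; rw [← exp_add, add_neg_cancel, exp_zero]
  have hquo : ∀ x y : ℝ, exp (x * I) * exp (-(y * I)) = exp (((x - y : ℝ) : ℂ) * I) := by
    intro x y; rw [← exp_add]; congr 1; push_cast; ring
  have hpi := Real.pi_pos
  -- side s = 0
  have s1 := im_change (g := fun t => G (0, t)) (w := fun t => 1 - β t * exp (-(a * I)))
    (q := exp (a * I)) (hcont _ (by fun_prop))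
    (continuousOn_const.sub (hβ.mul continuousOn_const))
    (fun t ht => re_pos (hβ1 t ht) (by rw [← h0]; exact hcon 0 m0 t ht)) (by
      intro t ht
      show exp (G (0, t)) = _
      rw [hG' 0 m0 t ht, h0]
      linear_combination β t * hmul a)
  -- side s = 1
  have s2 := im_change (g := fun t => G (1, t)) (w := fun t => 1 - β t * exp (-(c * I)))
    (q := exp (c * I)) (hcont _ (by fun_prop))
    (continuousOn_const.sub (hβ.mul continuousOn_const))
    (fun t ht => re_pos (hβ1 t ht) (by rw [← h1]; exact hcon 1 m1 t ht)) (by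
      intro t ht
      show exp (G (1, t)) = _
      rw [hG' 1 m1 t ht, h1]
      linear_combination β t * hmul c)
  -- side t = 0
  have s3 := im_change (g := fun s => G (s, 0)) (w := fun s => 1 - α s * exp (-(b * I)))
    (q := -exp (b * I)) (hcont _ (by fun_prop))
    (continuousOn_const.sub (hα.mul continuousOn_const))
    (fun s hs => re_pos (hα1 s hs) (by rw [← h2]; exact (hcon s hs 0 m0).symm)) (by
      intro s hs
      show exp (G (s, 0)) = _
      rw [hG' s hs 0 m0, h2]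
      linear_combination -α s * hmul b)
  -- side t = 1
  have s4 := im_change (g := fun s => G (s, 1)) (w := fun s => 1 - α s * exp (-(d * I)))
    (q := -exp (d * I)) (hcont _ (by fun_prop))
    (continuousOn_const.sub (hα.mul continuousOn_const))
    (fun s hs => re_pos (hα1 s hs) (by rw [← h3]; exact (hcon s hs 1 m1).symm)) (by
      intro s hs
      show exp (G (s, 1)) = _
      rw [hG' s hs 1 m1, h3]
      linear_combination -α s * hmul d)
  simp only [h0, h1, h2, h3, hquo] at s1 s2 s3 s4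
  rw [arg_one_sub' (φ := d - a) (ψ := d - a) (by linarith) (by linarith) (Or.inl rfl),
    arg_one_sub' (φ := b - a) (ψ := b - a) (by linarith) (by linarith) (Or.inl rfl)] at s1
  rw [arg_one_sub' (φ := d - c) (ψ := d - c) (by linarith) (by linarith) (Or.inl rfl),
    arg_one_sub' (φ := b - c) (ψ := b - c + 2 * Real.pi) (by linarith) (by linarith)
      (Or.inr (by ring))] at s2
  rw [arg_one_sub' (φ := c - b) (ψ := c - b) (by linarith) (by linarith) (Or.inl rfl),
    arg_one_sub' (φ := a - b) (ψ := a - b + 2 * Real.pi) (by linarith) (by linarith)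
      (Or.inr (by ring))] at s3
  rw [arg_one_sub' (φ := c - d) (ψ := c - d + 2 * Real.pi) (by linarith) (by linarith)
      (Or.inr (by ring)),
    arg_one_sub' (φ := a - d) (ψ := a - d + 2 * Real.pi) (by linarith) (by linarith)
      (Or.inr (by ring))] at s4
  linarith

end Pool.Agent.Helper77.GP
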