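import Mathlib
import Pool.Agent.Helper18.GP.Cyc
import Pool.Agent.Helper77.GP.Cross

/-!
# The complex embeds in the disc; paths between interleaved vertices meet
-/

namespace Pool.Agent.Helper77.GP

open Complex Set Pool.Agent.Helper18.GP

variable {N : ℕ}

/-- vertices on the circle -/
noncomputable def zt (v : Fin N) : ℂ := exp ((2 * Real.pi * (v : ℕ) / N : ℝ) * I)

/-- position of a point when the vertices are on the circle -/
noncomputable def Phi' (x : Fin N → ℝ) : ℂ := ∑ v, (x v : ℂ) * zt v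

lemma Phi'_dl (v : Fin N) : Phi' (dl v) = zt v := by
  have := dev_dl (fun v : Fin N => zt v) v
  exact this

lemma norm_zt (v : Fin N) : ‖zt v‖ = 1 := by
  unfold zt; exact norm_exp_ofReal_mul_I _

lemma norm_Phi' {V : Finset (Fin N)} {G : SimpleGraph (Fin N)} {x : Fin N → ℝ}
    (hx : x ∈ Pts V G) : ‖Phi' x‖ ≤ 1 := by
  unfold Phi'
  refine (norm_sum_le _ _).trans ?_
  rw [← hx.2.1]
  apply Finset.sum_le_sum
  intro v _
  rw [norm_mul, norm_zt, mul_one, norm_real, Real.norm_of_nonneg (hx.1 v)]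

lemma continuous_Phi' : Continuous (Phi' : (Fin N → ℝ) → ℂ) := by
  unfold Phi'
  fun_prop

/-- `zt` seen from `a` -/
lemma zt_cyc (a v : Fin N) :
    zt v = exp ((2 * Real.pi * (a : ℕ) / N + 2 * Real.pi * (cyc a v : ℕ) / N : ℝ) * I) := by
  have hN : (N : ℝ) ≠ 0 := by
    have := a.isLt
    have : 0 < N := by omega
    positivity
  unfold zt
  have ha := a.isLt
  have hv := v.isLt
  have hc : ((cyc a v : ℕ) : ℝ) = (v : ℕ) - (a : ℕ) ∨
      ((cyc a v : ℕ) : ℝ) = (v : ℕ) - (a : ℕ) + N := by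
    unfold cyc
    split_ifs with h
    · left; rw [Nat.cast_sub h]
    · right; rw [Nat.cast_sub (by omega)]; push_cast; ring
  rcases hc with h | h
  · rw [h]
    congr 3
    field_simp
    ring
  · rw [h]
    have e : (2 * Real.pi * (a : ℕ) / N + 2 * Real.pi * ((v : ℕ) - (a : ℕ) + N) / N : ℝ) =
        2 * Real.pi * (v : ℕ) / N + 2 * Real.pi := by
      field_simp
      ring
    rw [e, ofReal_add, add_mul, exp_add]
    have : exp (((2 * Real.pi : ℝ) : ℂ) * I) = 1 := by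
      push_cast; exact exp_two_pi_mul_I
    rw [this, mul_one]

/-- four sign changes -/
lemma four_changes {z : Fin N → ℝ} (hz : z ≠ 0) (h1 : ∑ v, z v = 0)
    (h2 : ∑ v, (z v : ℂ) * zt v = 0) :
    ∃ a b c d, 0 < z a ∧ z b < 0 ∧ 0 < z c ∧ z d < 0 ∧ Ccw a b c ∧ Ccw a c d := by
  have hneg : ∃ b, z b < 0 := by
    by_contra hcon
    push Not at hcon
    apply hz
    funext v
    exact (Finset.sum_eq_zero_iff_of_nonneg (fun v _ => hcon v)).1 h1 v (Finset.mem_univ v)
  have hpos : ∃ a, 0 < z a := by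
    by_contra hcon
    push Not at hcon
    apply hz
    funext v
    exact (Finset.sum_eq_zero_iff_of_nonpos (fun v _ => hcon v)).1 h1 v (Finset.mem_univ v)
  obtain ⟨a, ha⟩ := hpos
  obtain ⟨b0, hb0⟩ := hneg
  have hN : (0 : ℝ) < N := by
    have := a.isLt
    have : 0 < N := by omega
    positivity
  obtain ⟨b, hb, hbm⟩ := (Finset.univ.filter fun v => z v < 0).exists_min_image (cyc a)
    ⟨b0, by simpa using hb0⟩
  obtain ⟨d, hd, hdm⟩ := (Finset.univ.filter fun v => z v < 0).exists_max_image (cyc a)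
    ⟨b0, by simpa using hb0⟩
  simp only [Finset.mem_filter, Finset.mem_univ, true_and] at hb hbm hd hdm
  by_cases hc : ∃ c, 0 < z c ∧ cyc a b < cyc a c ∧ cyc a c < cyc a d
  · obtain ⟨c, hc1, hc2, hc3⟩ := hc
    have hba : 0 < cyc a b := cyc_pos.2 (by rintro rfl; linarith)
    exact ⟨a, b, c, d, ha, hb, hc1, hd, ⟨hba, hc2⟩, ⟨by omega, hc3⟩⟩
  · exfalso
    push Not at hc
    have hpi := Real.pi_pos
    obtain ⟨f, hf⟩ : ∃ f : Fin N → ℝ, ∀ v, f v =
        2 * Real.sin (Real.pi * ((cyc a v : ℝ) - cyc a b) / N) *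
          Real.sin (Real.pi * ((cyc a v : ℝ) - cyc a d) / N) := ⟨_, fun _ => rfl⟩
    have hsin : ∀ k l : ℕ, k < N → l < k → 0 < Real.sin (Real.pi * ((k : ℝ) - l) / N) := by
      intro k l hk hl
      have e1 : (l : ℝ) < k := by exact_mod_cast hl
      have e2 : (k : ℝ) < N := by exact_mod_cast hk
      have e3 : (0 : ℝ) ≤ l := Nat.cast_nonneg l
      apply Real.sin_pos_of_pos_of_lt_pi
      · exact div_pos (mul_pos hpi (by linarith)) hN
      · rw [div_lt_iff₀ hN]
        exact mul_lt_mul_of_pos_left (by linarith) hpi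
    have hsin' : ∀ k l : ℕ, l < N → k < l → Real.sin (Real.pi * ((k : ℝ) - l) / N) < 0 := by
      intro k l hk hl
      have := hsin l k hk hl
      have e : Real.pi * ((k : ℝ) - l) / N = -(Real.pi * ((l : ℝ) - k) / N) := by ring
      rw [e, Real.sin_neg]
      linarith
    have hsin0 : ∀ k l : ℕ, k < N → l ≤ k → 0 ≤ Real.sin (Real.pi * ((k : ℝ) - l) / N) := by
      intro k l hk hl
      rcases hl.lt_or_eq with h | h
      · exact (hsin k l hk h).le
      · rw [h]; simp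
    have hsin0' : ∀ k l : ℕ, l < N → k ≤ l → Real.sin (Real.pi * ((k : ℝ) - l) / N) ≤ 0 := by
      intro k l hk hl
      rcases hl.lt_or_eq with h | h
      · exact (hsin' k l hk h).le
      · rw [h]; simp
    have hbd : cyc a b ≤ cyc a d := hbm d hd
    have fpos : ∀ v, 0 < z v → 0 < f v := by
      intro v hv
      have hvb : v ≠ b := by rintro rfl; linarith
      have hvd : v ≠ d := by rintro rfl; linarith
      have n1 : cyc a v ≠ cyc a b := fun h => hvb (cyc_inj h)
      have n2 : cyc a v ≠ cyc a d := fun h => hvd (cyc_inj h)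
      rw [hf]
      rcases Nat.lt_or_ge (cyc a v) (cyc a b) with h | h
      · have s1 := hsin' _ _ (cyc_lt a b) h
        have s2 := hsin' _ _ (cyc_lt a d) (h.trans_le hbd)
        have := mul_pos_of_neg_of_neg s1 s2
        linarith
      · have h' := hc v hv (by omega)
        have s1 := hsin _ _ (cyc_lt a v) (show cyc a b < cyc a v by omega)
        have s2 := hsin _ _ (cyc_lt a v) (show cyc a d < cyc a v by omega)
        have := mul_pos s1 s2
        linarith
    have fneg : ∀ v, z v < 0 → f v ≤ 0 := by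
      intro v hv
      have s1 := hsin0 _ _ (cyc_lt a v) (hbm v hv)
      have s2 := hsin0' _ _ (cyc_lt a d) (hdm v hv)
      rw [hf]
      have := mul_nonpos_of_nonneg_of_nonpos s1 s2
      linarith
    have hsum : 0 < ∑ v, z v * f v := by
      apply Finset.sum_pos'
      · intro v _
        rcases lt_trichotomy (z v) 0 with h | h | h
        · exact mul_nonneg_of_nonpos_of_nonpos h.le (fneg v h)
        · rw [h, zero_mul]
        · exact (mul_pos h (fpos v h)).le
      · exact ⟨a, Finset.mem_univ a, mul_pos ha (fpos a ha)⟩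
    obtain ⟨C, hC⟩ : ∃ C : ℝ, C = Real.cos (Real.pi * ((cyc a d : ℝ) - cyc a b) / N) := ⟨_, rfl⟩
    obtain ⟨w, hw⟩ : ∃ w : ℂ, w = exp ((-(Real.pi * ((cyc a b : ℝ) + cyc a d) / N) -
      2 * Real.pi * (a : ℕ) / N : ℝ) * I) := ⟨_, rfl⟩
    have hfv : ∀ v, f v = C - (w * zt v).re := by
      intro v
      rw [hf, hC, hw, zt_cyc a v, ← exp_add, ← add_mul, ← ofReal_add, exp_ofReal_mul_I_re]
      have e1 : Real.pi * ((cyc a d : ℝ) - cyc a b) / N =
          Real.pi * ((cyc a v : ℝ) - cyc a b) / N - Real.pi * ((cyc a v : ℝ) - cyc a d) / N := by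
        ring
      have e2 : -(Real.pi * ((cyc a b : ℝ) + cyc a d) / N) - 2 * Real.pi * (a : ℕ) / N +
          (2 * Real.pi * (a : ℕ) / N + 2 * Real.pi * (cyc a v : ℕ) / N) =
          Real.pi * ((cyc a v : ℝ) - cyc a b) / N + Real.pi * ((cyc a v : ℝ) - cyc a d) / N := by
        ring
      rw [e1, e2, Real.cos_sub, Real.cos_add]
      ring
    have h0 : ∑ v, z v * f v = 0 := by
      have e : ∀ v, z v * f v = C * z v - (w * ((z v : ℂ) * zt v)).re := by
        intro v
        rw [hfv]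
        have : w * ((z v : ℂ) * zt v) = (z v : ℂ) * (w * zt v) := by ring
        rw [this, re_ofReal_mul]
        ring
      simp_rw [e]
      rw [Finset.sum_sub_distrib, ← Finset.mul_sum, h1, ← re_sum, ← Finset.mul_sum, h2]
      simp
    linarith

/-- `Phi'` is injective on the points of a complex without interleaving edges. -/
theorem Phi'_inj {V : Finset (Fin N)} {G : SimpleGraph (Fin N)}
    (nc : ∀ a ∈ V, ∀ b ∈ V, ∀ c ∈ V, ∀ d ∈ V, G.Adj a b → G.Adj c d → ¬ Crs a b c d)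
    {x y : Fin N → ℝ} (hx : x ∈ Pts V G) (hy : y ∈ Pts V G) (h : Phi' x = Phi' y) : x = y := by
  by_contra hne
  obtain ⟨a, b, c, d, ha, hb, hc, hd, habc, hacd⟩ := four_changes (z := x - y)
    (sub_ne_zero.2 hne) (by
      simp only [Pi.sub_apply]
      rw [Finset.sum_sub_distrib, hx.2.1, hy.2.1, sub_self]) (by
      have e : ∀ v, (((x - y) v : ℝ) : ℂ) * zt v = (x v : ℂ) * zt v - (y v : ℂ) * zt v := by
        intro v
        rw [Pi.sub_apply, ofReal_sub]
        ring
      simp_rw [e]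
      rw [Finset.sum_sub_distrib]
      exact sub_eq_zero.2 h)
  simp only [Pi.sub_apply] at ha hb hc hd
  have xa : x a ≠ 0 := by have := hy.1 a; intro h; linarith
  have xc : x c ≠ 0 := by have := hy.1 c; intro h; linarith
  have yb : y b ≠ 0 := by have := hx.1 b; intro h; linarith
  have yd : y d ≠ 0 := by have := hx.1 d; intro h; linarith
  have hac : a ≠ c := by
    rintro rfl
    have := hacd.1
    rw [cyc_self] at this
    exact lt_irrefl 0 this
  have hbd : b ≠ d := by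
    rintro rfl
    have h1 := habc.2
    have h2 := hacd.2
    omega
  exact nc a (hx.2.2.1 a xa) c (hx.2.2.1 c xc) b (hy.2.2.1 b yb) d (hy.2.2.1 d yd)
    (hx.2.2.2 a c xa xc hac) (hy.2.2.2 b d yb yd hbd) (Or.inl ⟨habc, hacd⟩)

/-- Two paths of the complex between interleaved pairs of vertices meet. -/
theorem cross_paths {V : Finset (Fin N)} {G : SimpleGraph (Fin N)}
    (nc : ∀ a ∈ V, ∀ b ∈ V, ∀ c ∈ V, ∀ d ∈ V, G.Adj a b → G.Adj c d → ¬ Crs a b c d)
    {α β : ℝ → Fin N → ℝ} (hα : ContinuousOn α (Icc 0 1)) (hβ : ContinuousOn β (Icc 0 1))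
    (hα1 : ∀ t ∈ Icc (0 : ℝ) 1, α t ∈ Pts V G) (hβ1 : ∀ t ∈ Icc (0 : ℝ) 1, β t ∈ Pts V G)
    {a b c d : Fin N} (h : Crs a c b d)
    (h0 : α 0 = dl a) (h1 : α 1 = dl c) (h2 : β 0 = dl b) (h3 : β 1 = dl d) :
    ∃ s ∈ Icc (0 : ℝ) 1, ∃ t ∈ Icc (0 : ℝ) 1, α s = β t := by
  have hN : (0 : ℝ) < N := by
    have := a.isLt
    have : 0 < N := by omega
    positivity
  have hpi := Real.pi_pos
  have key : ∀ {β : ℝ → Fin N → ℝ} (hβ : ContinuousOn β (Icc 0 1))
      (hβ1 : ∀ t ∈ Icc (0 : ℝ) 1, β t ∈ Pts V G) {b d : Fin N} (h : Ccw a b c ∧ Ccw a c d)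
      (h2 : β 0 = dl b) (h3 : β 1 = dl d),
      ∃ s ∈ Icc (0 : ℝ) 1, ∃ t ∈ Icc (0 : ℝ) 1, α s = β t := by
    intro β hβ hβ1 b d h h2 h3
    have hlt : ∀ k l : ℕ, k < l → (2 * Real.pi * (a : ℕ) / N + 2 * Real.pi * (k : ℕ) / N : ℝ) <
        2 * Real.pi * (a : ℕ) / N + 2 * Real.pi * (l : ℕ) / N := by
      intro k l hkl
      have : (k : ℝ) < l := by exact_mod_cast hkl
      gcongr
    obtain ⟨s, hs, t, ht, hst⟩ := crossing (fun t => Phi' (α t)) (fun t => Phi' (β t))
      (continuous_Phi'.comp_continuousOn hα) (continuous_Phi'.comp_continuousOn hβ)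
      (fun t ht => norm_Phi' (hα1 t ht)) (fun t ht => norm_Phi' (hβ1 t ht))
      (a := 2 * Real.pi * (a : ℕ) / N + 2 * Real.pi * (cyc a a : ℕ) / N)
      (b := 2 * Real.pi * (a : ℕ) / N + 2 * Real.pi * (cyc a b : ℕ) / N)
      (c := 2 * Real.pi * (a : ℕ) / N + 2 * Real.pi * (cyc a c : ℕ) / N)
      (d := 2 * Real.pi * (a : ℕ) / N + 2 * Real.pi * (cyc a d : ℕ) / N)
      (hlt _ _ (by rw [cyc_self]; exact h.1.1)) (hlt _ _ h.1.2) (hlt _ _ h.2.2) (by
        rw [cyc_self]
        have h4 : ((cyc a d : ℕ) : ℝ) < N := by exact_mod_cast cyc_lt a d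
        have h5 : 2 * Real.pi * (cyc a d : ℕ) / N < 2 * Real.pi := by
          rw [div_lt_iff₀ hN]
          exact mul_lt_mul_of_pos_left h4 (by linarith)
        push_cast
        simp only [mul_zero, zero_div, add_zero]
        linarith)
      (by show Phi' (α 0) = _; rw [h0, Phi'_dl, zt_cyc a a])
      (by show Phi' (α 1) = _; rw [h1, Phi'_dl, zt_cyc a c])
      (by show Phi' (β 0) = _; rw [h2, Phi'_dl, zt_cyc a b])
      (by show Phi' (β 1) = _; rw [h3, Phi'_dl, zt_cyc a d])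
    exact ⟨s, hs, t, ht, Phi'_inj nc (hα1 s hs) (hβ1 t ht) hst⟩
  rcases h with h | h
  · exact key hβ hβ1 h h2 h3
  · have hm : ∀ t ∈ Icc (0 : ℝ) 1, 1 - t ∈ Icc (0 : ℝ) 1 := by
      intro t ht
      exact ⟨by linarith [ht.2], by linarith [ht.1]⟩
    obtain ⟨s, hs, t, ht, hst⟩ := key (β := fun t => β (1 - t))
      (hβ.comp (continuousOn_const.sub continuousOn_id) hm) (fun t ht => hβ1 _ (hm t ht)) h
      (by simpa using h3) (by simpa using h2)
    exact ⟨s, hs, 1 - t, hm t ht, hst⟩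

/-- The same with `JoinedIn`. -/
theorem joined_cross {V : Finset (Fin N)} {G : SimpleGraph (Fin N)}
    (nc : ∀ a ∈ V, ∀ b ∈ V, ∀ c ∈ V, ∀ d ∈ V, G.Adj a b → G.Adj c d → ¬ Crs a b c d)
    {S T : Set (Fin N → ℝ)} (hS : S ⊆ Pts V G) (hT : T ⊆ Pts V G)
    {a b c d : Fin N} (h : Crs a c b d) (h1 : JoinedIn S (dl a) (dl c))
    (h2 : JoinedIn T (dl b) (dl d)) : (S ∩ T).Nonempty := by
  obtain ⟨γ, hγ⟩ := h1
  obtain ⟨δ, hδ⟩ := h2
  have e : ∀ {x y : Fin N → ℝ} {U : Set (Fin N → ℝ)} (γ : Path x y) (_ : ∀ t, γ t ∈ U),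
      ∀ t ∈ Icc (0 : ℝ) 1, γ.extend t ∈ U := by
    intro x y U γ hγ t ht
    rw [Path.extend_apply γ ht]
    exact hγ _
  obtain ⟨s, hs, t, ht, hst⟩ := cross_paths nc γ.continuous_extend.continuousOn
    δ.continuous_extend.continuousOn (fun t ht => hS (e γ hγ t ht))
    (fun t ht => hT (e δ hδ t ht)) h γ.extend_zero γ.extend_one δ.extend_zero δ.extend_one
  exact ⟨_, e γ hγ s hs, by rw [hst]; exact e δ hδ t ht⟩

end Pool.Agent.Helper77.GP
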