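import Mathlib
import Pool.Agent.Helper18.GP.Api
import Pool.Agent.Helper77.ST.Final

/-!
# Gilbert-Pollak: from finite networks to Hausdorff measure
-/

namespace Pool.Agent.Helper77.GP

open Relation Real Finset MeasureTheory Classical Pool.Agent.Helper77.Steiner
  Pool.Agent.Helper18.GP
open scoped ENNReal

/-- A network built step by step is a list of pairs. -/
lemma net_list {E F : Type*} [PseudoMetricSpace E] [PseudoMetricSpace F] {f : E → F}
    (hf : Isometry f) {V : Finset E} {l : ℝ} (h : Net V l) :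
    ∃ L : List (F × F), NConn L (f '' (V : Set E)) ∧ nlen dist L = l := by
  induction h with
  | single v =>
    refine ⟨[], ?_, by simp [nlen]⟩
    rintro _ ⟨a, ha, rfl⟩ _ ⟨b, hb, rfl⟩
    rw [Finset.coe_singleton, Set.mem_singleton_iff] at ha hb
    rw [ha, hb]
    exact EqvGen.refl _
  | @step V l h p hp w ih =>
    obtain ⟨L, hL, hl⟩ := ih
    refine ⟨(f p, f w) :: L, ?_, ?_⟩
    · have mono : ∀ x y, EqvGen (fun x y => (x, y) ∈ L) x y →
          EqvGen (fun x y => (x, y) ∈ (f p, f w) :: L) x y := by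
        intro x y hxy
        exact hxy.mono fun a b hab => List.mem_cons_of_mem _ hab
      have key : ∀ a ∈ f '' ((insert w V : Finset E) : Set E),
          EqvGen (fun x y => (x, y) ∈ (f p, f w) :: L) (f p) a := by
        rintro _ ⟨a, ha, rfl⟩
        rw [Finset.mem_coe, Finset.mem_insert] at ha
        rcases ha with rfl | ha
        · exact EqvGen.rel _ _ (List.mem_cons_self)
        · exact mono _ _ (hL _ ⟨p, hp, rfl⟩ _ ⟨a, ha, rfl⟩)
      intro a ha b hb
      exact ((key a ha).symm).trans _ _ _ (key b hb)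
    · have : nlen dist ((f p, f w) :: L) = dist (f p) (f w) + nlen dist L := by
        simp [nlen]
      rw [this, hl, hf.dist_eq, add_comm]

/-- A finite set of pairs connecting `A` contains a tree. -/
lemma mstLen_le_list {E : Type*} [MetricSpace E] (A : Finset E) (hA : A.Nonempty)
    (m : List (E × E)) (hm : ∀ e ∈ m, e.1 ∈ A ∧ e.2 ∈ A) (hc : NConn m (A : Set E)) :
    mstLen A ≤ nlen dist m := by
  have : Nonempty A := hA.to_subtype
  obtain ⟨G, hG⟩ : ∃ G : SimpleGraph A, ∀ x y : A,
      G.Adj x y ↔ x ≠ y ∧ (((x : E), (y : E)) ∈ m ∨ ((y : E), (x : E)) ∈ m) :=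
    ⟨SimpleGraph.fromRel fun x y : A => ((x : E), (y : E)) ∈ m, fun x y =>
      SimpleGraph.fromRel_adj _ _ _⟩
  have key : ∀ x y : E, EqvGen (fun x y => (x, y) ∈ m) x y →
      (x ∈ A ↔ y ∈ A) ∧ ∀ (hx : x ∈ A) (hy : y ∈ A), G.Reachable ⟨x, hx⟩ ⟨y, hy⟩ := by
    intro x y h
    induction h with
    | rel x y h =>
      refine ⟨⟨fun _ => (hm _ h).2, fun _ => (hm _ h).1⟩, fun hx hy => ?_⟩
      by_cases hxy : x = y
      · subst hxy; exact SimpleGraph.Reachable.refl _
      · exact SimpleGraph.Adj.reachable ((hG _ _).2 ⟨fun h' => hxy (congrArg Subtype.val h'),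
          Or.inl h⟩)
    | refl x => exact ⟨Iff.rfl, fun _ _ => SimpleGraph.Reachable.refl _⟩
    | symm x y _ ih => exact ⟨ih.1.symm, fun hx hy => (ih.2 hy hx).symm⟩
    | trans x y z _ _ ih1 ih2 =>
      exact ⟨ih1.1.trans ih2.1, fun hx hz => (ih1.2 hx (ih1.1.1 hx)).trans (ih2.2 _ hz)⟩
  have hconn : G.Connected := by
    rw [SimpleGraph.connected_iff]
    refine ⟨fun x y => ?_, this⟩
    exact (key x y (hc x x.2 y y.2)).2 x.2 y.2
  obtain ⟨T, hTG, hT⟩ := hconn.exists_isTree_le
  refine (mstLen_le A T hT).trans ?_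
  have hch : ∀ e ∈ T.edgeFinset, ∃ p ∈ m, s(p.1, p.2) = e.map Subtype.val ∧
      edgeLen A e = dist p.1 p.2 := by
    intro e he
    induction e with
    | h x y =>
      rw [SimpleGraph.mem_edgeFinset, SimpleGraph.mem_edgeSet] at he
      have h := (hG x y).1 (hTG he)
      rw [edgeLen_mk]
      rcases h.2 with h | h
      · exact ⟨_, h, rfl, rfl⟩
      · exact ⟨_, h, Sym2.eq_swap, dist_comm _ _⟩
  have hEE : Nonempty (E × E) := ⟨(hA.choose, hA.choose)⟩
  choose! p hp1 hp2 hp3 using hch
  have hinj : Set.InjOn p (T.edgeFinset : Set (Sym2 A)) := by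
    intro e he e' he' h
    have h1 := hp2 e he
    have h2 := hp2 e' he'
    rw [h, h2] at h1
    exact (Sym2.map.injective Subtype.val_injective h1).symm
  calc ∑ e ∈ T.edgeFinset, edgeLen A e = ∑ e ∈ T.edgeFinset, dist (p e).1 (p e).2 :=
        Finset.sum_congr rfl hp3
    _ = ∑ q ∈ T.edgeFinset.image p, dist q.1 q.2 :=
        (Finset.sum_image (f := fun q : E × E => dist q.1 q.2) hinj).symm
    _ ≤ ∑ q ∈ m.toFinset, dist q.1 q.2 := by
        apply Finset.sum_le_sum_of_subset_of_nonneg
        · intro q hq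
          rw [Finset.mem_image] at hq
          obtain ⟨e, he, rfl⟩ := hq
          exact List.mem_toFinset.2 (hp1 e he)
        · intro _ _ _; exact dist_nonneg
    _ ≤ nlen dist m := by
        have hdd : m.toFinset = m.dedup.toFinset := by ext q; simp
        rw [hdd, List.sum_toFinset _ (List.nodup_dedup m)]
        apply List.Sublist.sum_le_sum ((List.dedup_sublist m).map _)
        intro a ha
        rw [List.mem_map] at ha
        obtain ⟨q, _, rfl⟩ := ha
        exact dist_nonneg

/-- `√3/2 · L_M(A) ≤ H¹(S)` in the plane. -/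
lemma mstLen_le_measure' (h : stPlanar) (A : Finset (EuclideanSpace ℝ (Fin 2)))
    (hA : A.Nonempty) (S : Set (EuclideanSpace ℝ (Fin 2)))
    (hS : IsConnected (S ∪ (A : Set (EuclideanSpace ℝ (Fin 2))))) (hfin : μH[1] S ≠ ⊤) :
    rho * mstLen A ≤ (μH[1] S).toReal := by
  have hA0 : μH[1] (A : Set (EuclideanSpace ℝ (Fin 2))) = 0 := by
    have := Measure.nullSingletonClass_hausdorff (EuclideanSpace ℝ (Fin 2)) (d := 1) one_pos
    exact A.finite_toSet.measure_zero _
  have hSA : μH[1] (S ∪ (A : Set (EuclideanSpace ℝ (Fin 2)))) ≤ μH[1] S := by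
    refine (measure_union_le _ _).trans ?_
    rw [hA0, add_zero]
  have hSAfin : μH[1] (S ∪ (A : Set (EuclideanSpace ℝ (Fin 2)))) ≠ ⊤ :=
    ne_top_of_le_ne_top hfin hSA
  have h3 : (μH[1] (S ∪ (A : Set (EuclideanSpace ℝ (Fin 2))))).toReal ≤ (μH[1] S).toReal :=
    ENNReal.toReal_mono hfin hSA
  apply le_of_forall_pos_le_add
  intro ε hε
  obtain ⟨V, l, hN, hAV, hl⟩ := exists_net hS.isPreconnected A hA
    (fun x hx => Or.inr (by exact_mod_cast hx)) hSAfin hε
  set g := Complex.orthonormalBasisOneI.repr with hg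
  obtain ⟨L, hL, hLl⟩ := net_list g.symm.isometry hN
  have hinj : Function.Injective g.symm := g.symm.injective
  obtain ⟨m, hm, hmc, hml⟩ := h (A.image g.symm) L (by
    intro a ha b hb
    rw [Finset.mem_coe, Finset.mem_image] at ha hb
    obtain ⟨a, ha, rfl⟩ := ha
    obtain ⟨b, hb, rfl⟩ := hb
    exact hL _ ⟨a, by exact_mod_cast hAV ha, rfl⟩ _ ⟨b, by exact_mod_cast hAV hb, rfl⟩)
  have hm' : mstLen A ≤ nlen dist (m.map fun e => (g e.1, g e.2)) := by
    apply mstLen_le_list A hA
    · intro e he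
      rw [List.mem_map] at he
      obtain ⟨e, he, rfl⟩ := he
      have h1 := hm e he
      rw [Finset.mem_image, Finset.mem_image] at h1
      obtain ⟨⟨a, ha, ha'⟩, ⟨b, hb, hb'⟩⟩ := h1
      constructor
      · show g e.1 ∈ A
        rw [← ha', LinearIsometryEquiv.apply_symm_apply]
        exact ha
      · show g e.2 ∈ A
        rw [← hb', LinearIsometryEquiv.apply_symm_apply]
        exact hb
    · intro a ha b hb
      have h1 := hmc (g.symm a) (by exact_mod_cast Finset.mem_image_of_mem _ ha) (g.symm b)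
        (by exact_mod_cast Finset.mem_image_of_mem _ hb)
      have h2 : ∀ x y : ℂ, EqvGen (fun x y => (x, y) ∈ m) x y →
          EqvGen (fun x y => (x, y) ∈ m.map fun e => (g e.1, g e.2)) (g x) (g y) := by
        intro x y hxy
        induction hxy with
        | rel x y h => exact EqvGen.rel _ _ (List.mem_map.2 ⟨(x, y), h, rfl⟩)
        | refl x => exact EqvGen.refl _
        | symm x y _ ih => exact ih.symm
        | trans x y z _ _ ih1 ih2 => exact ih1.trans _ _ _ ih2
      have h3 := h2 _ _ h1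
      rwa [LinearIsometryEquiv.apply_symm_apply, LinearIsometryEquiv.apply_symm_apply] at h3
  have hlen : nlen dist (m.map fun e => (g e.1, g e.2)) = nlen dist m := by
    unfold nlen
    rw [List.map_map]
    congr 1
    apply List.map_congr_left
    intro e _
    exact g.isometry.dist_eq e.1 e.2
  rw [hlen] at hm'
  have hr : 0 ≤ rho := by unfold rho; positivity
  calc rho * mstLen A ≤ rho * nlen dist m := mul_le_mul_of_nonneg_left hm' hr
    _ ≤ l := by rw [← hLl]; exact hml
    _ ≤ (μH[1] S).toReal + ε := by linarith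

theorem lower (h : stPlanar) : ENNReal.ofReal (√3 / 2) ≤ steinerRatio 2 := by
  unfold steinerRatio steinerRatioOf
  refine le_iInf₂ fun A hA => ?_
  have hAne : A.Nonempty := Finset.card_pos.1 (by omega)
  have hpos := mstLen_pos A hA
  rw [ENNReal.le_div_iff_mul_le (Or.inl (by simpa using hpos)) (Or.inl ENNReal.ofReal_ne_top)]
  unfold steinerLen
  refine le_iInf fun S => le_iInf₂ fun _ hS => ?_
  by_cases hfin : μH[1] S = ⊤
  · rw [hfin]; exact le_top
  · have h1 := mstLen_le_measure' h A hAne S hS hfin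
    rw [← ENNReal.ofReal_mul (by positivity)]
    exact ENNReal.ofReal_le_of_le_toReal h1

section upper

/-- vertices and centre of a unit triangle -/
lemma tri_dist : ∃ a b c s : EuclideanSpace ℝ (Fin 2), dist a b = 1 ∧ dist b c = 1 ∧
    dist a c = 1 ∧ dist a s = √3 / 3 ∧ dist b s = √3 / 3 ∧ dist c s = √3 / 3 := by
  have h3 : √3 ^ 2 = (3 : ℝ) := Real.sq_sqrt (by norm_num)
  have h3p : 0 < √3 := Real.sqrt_pos.2 (by norm_num)
  refine ⟨!₂[0, 0], !₂[1, 0], !₂[1 / 2, √3 / 2], !₂[1 / 2, √3 / 6], ?_, ?_, ?_, ?_, ?_, ?_⟩ <;>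
  · rw [EuclideanSpace.dist_eq, Real.sqrt_eq_iff_mul_self_eq (by positivity) (by positivity)]
    simp only [Fin.sum_univ_two, Real.dist_eq, sq_abs]
    norm_num <;> nlinarith [h3]

theorem upper : steinerRatio 2 ≤ ENNReal.ofReal (√3 / 2) := by
  have h3p : 0 < √3 := Real.sqrt_pos.2 (by norm_num)
  obtain ⟨a, b, c, s, hab, hbc, hac, has, hbs, hcs⟩ := tri_dist
  have hab' : a ≠ b := by rintro rfl; simp at hab
  have hbc' : b ≠ c := by rintro rfl; simp at hbc
  have hac' : a ≠ c := by rintro rfl; simp at hac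
  set A : Finset (EuclideanSpace ℝ (Fin 2)) := {a, b, c} with hAdef
  have hcard : A.card = 3 := Finset.card_eq_three.2 ⟨a, b, c, hab', hac', hbc', rfl⟩
  have hA2 : 2 ≤ A.card := by omega
  have hAne : A.Nonempty := Finset.card_pos.1 (by omega)
  have hmst : (2 : ℝ) ≤ mstLen A := by
    have h := le_mstLen A hAne 1 (by
      intro x hx y hy hxy
      rw [hAdef] at hx hy
      simp only [Finset.mem_insert, Finset.mem_singleton] at hx hy
      rcases hx with rfl | rfl | rfl <;> rcases hy with rfl | rfl | rfl <;>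
        first | exact absurd rfl hxy | linarith | (rw [dist_comm]; linarith))
    rw [hcard] at h
    norm_num at h
    exact h
  set S := (segment ℝ a s ∪ segment ℝ b s) ∪ segment ℝ c s with hSdef
  have hSc : IsClosed S := ((isClosed_seg _ _).union (isClosed_seg _ _)).union (isClosed_seg _ _)
  have hScon : IsConnected S := by
    apply IsConnected.union ⟨s, Or.inl (right_mem_segment ℝ a s), right_mem_segment ℝ c s⟩ _
      (isConnected_seg _ _)
    exact IsConnected.union ⟨s, right_mem_segment ℝ a s, right_mem_segment ℝ b s⟩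
      (isConnected_seg _ _) (isConnected_seg _ _)
  have hAS : (A : Set (EuclideanSpace ℝ (Fin 2))) ⊆ S := by
    intro x hx
    rw [hAdef] at hx
    simp only [Finset.coe_insert, Finset.coe_singleton, Set.mem_insert_iff,
      Set.mem_singleton_iff] at hx
    rcases hx with rfl | rfl | rfl
    · exact Or.inl (Or.inl (left_mem_segment ℝ _ _))
    · exact Or.inl (Or.inr (left_mem_segment ℝ _ _))
    · exact Or.inr (left_mem_segment ℝ _ _)
  have hSA : S ∪ (A : Set (EuclideanSpace ℝ (Fin 2))) = S := Set.union_eq_left.2 hAS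
  have hlen : μH[1] S ≤ ENNReal.ofReal √3 := by
    calc μH[1] S ≤ μH[1] (segment ℝ a s ∪ segment ℝ b s) + μH[1] (segment ℝ c s) :=
          measure_union_le _ _
      _ ≤ (μH[1] (segment ℝ a s) + μH[1] (segment ℝ b s)) + μH[1] (segment ℝ c s) :=
          add_le_add (measure_union_le _ _) le_rfl
      _ = ENNReal.ofReal √3 := by
          rw [hausdorffMeasure_segment, hausdorffMeasure_segment, hausdorffMeasure_segment,
            edist_dist, edist_dist, edist_dist, has, hbs, hcs,
            ← ENNReal.ofReal_add (by positivity) (by positivity),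
            ← ENNReal.ofReal_add (by positivity) (by positivity)]
          congr 1
          ring
  have hst : steinerLen A ≤ ENNReal.ofReal √3 := by
    unfold steinerLen
    exact iInf_le_of_le S (iInf₂_le_of_le hSc (by rw [hSA]; exact hScon) hlen)
  unfold steinerRatio steinerRatioOf
  refine (iInf₂_le A hA2).trans ?_
  calc steinerLen A / ENNReal.ofReal (mstLen A) ≤ ENNReal.ofReal √3 / ENNReal.ofReal 2 :=
        ENNReal.div_le_div hst (ENNReal.ofReal_le_ofReal hmst)
    _ = ENNReal.ofReal (√3 / 2) := by rw [ENNReal.ofReal_div_of_pos (by norm_num)]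

end upper

/-- HAUS: the planar theorem gives the value of the Steiner ratio of the plane. -/
theorem haus (h : stPlanar) : steinerRatio 2 = ENNReal.ofReal (√3 / 2) :=
  le_antisymm upper (lower h)

end Pool.Agent.Helper77.GP
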